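import Mathlib

/-!
# Descending polygonal paths in compact sets (helper20)
-/

namespace Pool.Agent.V1120.LN

open Set Metric

variable {V : Type*} [NormedAddCommGroup V] [NormedSpace ℝ V]

/-- `x` is a point of local nonconvexity of `E`. -/
def LNC (E : Set V) (x : V) : Prop :=
  x ∈ frontier E ∧ ∀ r : ℝ, 0 < r → ¬ Convex ℝ (Metric.ball x r ∩ E)

/-- `x` is clearly visible from `y` in `E`. -/
def ClearlyVisible (E : Set V) (x y : V) : Prop :=
  ∃ r : ℝ, 0 < r ∧ ∀ p ∈ Metric.ball x r ∩ E, segment ℝ y p ⊆ E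

/-- Points from which there is a polygonal path in `E`, with strictly decreasing `h`, to a point
at which `h < s`. -/
inductive Desc (E : Set V) (h : V →L[ℝ] ℝ) (s : ℝ) : V → Prop
  | base (p : V) : p ∈ E → h p < s → Desc E h s p
  | step (p u : V) : segment ℝ p u ⊆ E → h u < h p → Desc E h s u → Desc E h s p

variable {E : Set V} {h : V →L[ℝ] ℝ} {s : ℝ}

theorem Desc.mem {p : V} (hp : Desc E h s p) : p ∈ E := by
  cases hp with
  | base _ h1 _ => exact h1
  | step _ u h1 _ _ => exact h1 (left_mem_segment ℝ p u)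

/-- Points of a segment which are not the lower endpoint are strictly higher. -/
theorem lt_of_mem_segment {p u e : V} (he : e ∈ segment ℝ p u) (hlt : h u < h p) (hne : e ≠ u) :
    h u < h e := by
  obtain ⟨a, b, ha, hb, hab, rfl⟩ := he
  have ha0 : a ≠ 0 := by
    rintro rfl
    apply hne
    have : b = 1 := by linarith
    simp [this]
  have hapos : 0 < a := lt_of_le_of_ne ha (Ne.symm ha0)
  rw [map_add, map_smul, map_smul, smul_eq_mul, smul_eq_mul]
  have hb' : b = 1 - a := by linarith
  rw [hb']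
  nlinarith

theorem le_of_mem_segment {p u e : V} (he : e ∈ segment ℝ p u) (hlt : h u ≤ h p) :
    h e ≤ h p := by
  obtain ⟨a, b, ha, hb, hab, rfl⟩ := he
  rw [map_add, map_smul, map_smul, smul_eq_mul, smul_eq_mul]
  have hb' : a = 1 - b := by linarith
  rw [hb']
  nlinarith

theorem Desc.of_segment {p u e : V} (hpu : segment ℝ p u ⊆ E) (hlt : h u < h p)
    (hu : Desc E h s u) (he : e ∈ segment ℝ p u) : Desc E h s e := by
  by_cases hne : e = u
  · rw [hne]; exact hu
  · exact Desc.step e u (((convex_segment p u).segment_subset he (right_mem_segment ℝ p u)).trans hpu)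
      (lt_of_mem_segment he hlt hne) hu

/-- Just below a point with a descending path there are points with descending paths. -/
theorem Desc.near {p : V} (hp : Desc E h s p) (hs : s ≤ h p) (ε : ℝ) (hε : 0 < ε) :
    ∃ u, Desc E h s u ∧ dist u p < ε ∧ h u < h p := by
  cases hp with
  | base _ _ h2 => exact absurd h2 (not_lt.2 hs)
  | step _ u h1 h2 h3 =>
    -- a point on the segment close to `p`
    set τ : ℝ := min (1 / 2) (ε / (2 * (‖u - p‖ + 1))) with hτ
    have hnn : 0 ≤ ‖u - p‖ := norm_nonneg _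
    have hτ0 : 0 < τ := by
      apply lt_min (by norm_num)
      positivity
    have hτ1 : τ ≤ 1 / 2 := min_le_left _ _
    refine ⟨p + τ • (u - p), ?_, ?_, ?_⟩
    · apply Desc.of_segment h1 h2 h3
      refine ⟨1 - τ, τ, by linarith, hτ0.le, by ring, ?_⟩
      module
    · rw [dist_eq_norm]
      have : p + τ • (u - p) - p = τ • (u - p) := by module
      rw [this, norm_smul, Real.norm_of_nonneg hτ0.le]
      have h4 : τ ≤ ε / (2 * (‖u - p‖ + 1)) := min_le_right _ _
      calc τ * ‖u - p‖ ≤ ε / (2 * (‖u - p‖ + 1)) * ‖u - p‖ := by gcongr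
        _ < ε := by
          rw [div_mul_eq_mul_div, div_lt_iff₀ (by positivity)]
          nlinarith
    · rw [map_add, map_smul, smul_eq_mul, map_sub]
      nlinarith

/-- In a convex piece, everything above a point with a descending path has one. -/
theorem Desc.of_convex {P : Set V} (hP : Convex ℝ P) (hPE : P ⊆ E) (hPo : ∀ a ∈ P, ∃ ε > 0,
    ball a ε ∩ E ⊆ P) {a b : V} (ha : a ∈ P) (hb : b ∈ P) (hda : Desc E h s a) (hab : h a ≤ h b) :
    Desc E h s b := by
  by_cases hbs : h b < s
  · exact Desc.base b (hPE hb) hbs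
  push Not at hbs
  rcases lt_or_eq_of_le hab with hlt | heq
  · exact Desc.step b a ((hP.segment_subset hb ha).trans hPE) hlt hda
  · obtain ⟨ε, hε, hball⟩ := hPo a ha
    obtain ⟨u, hu, hdist, hlt⟩ := hda.near (by rw [heq]; exact hbs) ε hε
    have huP : u ∈ P := hball ⟨mem_ball.2 hdist, hu.mem⟩
    exact Desc.step b u ((hP.segment_subset hb huP).trans hPE) (by rw [← heq]; exact hlt) hu

theorem ball_inter_open (p : V) (r : ℝ) : ∀ a ∈ ball p r ∩ E, ∃ ε > 0,
    ball a ε ∩ E ⊆ ball p r ∩ E := by
  intro a ha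
  obtain ⟨ε, hε, hsub⟩ := Metric.isOpen_iff.1 isOpen_ball a ha.1
  exact ⟨ε, hε, fun x hx => ⟨hsub hx.1, hx.2⟩⟩

/-- A point of `E` is a point of local nonconvexity or has a convex neighbourhood. -/
theorem lnc_or (p : V) (hp : p ∈ E) : LNC E p ∨ ∃ r > 0, Convex ℝ (ball p r ∩ E) := by
  by_cases hf : p ∈ frontier E
  · by_cases hr : ∀ r : ℝ, 0 < r → ¬ Convex ℝ (Metric.ball p r ∩ E)
    · exact Or.inl ⟨hf, hr⟩
    · push Not at hr
      obtain ⟨r, hr0, hr⟩ := hr
      exact Or.inr ⟨r, hr0, hr⟩
  · right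
    have hint : p ∈ interior E := by
      by_contra hcon
      exact hf ⟨subset_closure hp, hcon⟩
    obtain ⟨r, hr, hsub⟩ := Metric.isOpen_iff.1 isOpen_interior p hint
    refine ⟨r, hr, ?_⟩
    have : ball p r ∩ E = ball p r := by
      apply Set.inter_eq_left.2
      exact hsub.trans interior_subset
    rw [this]
    exact convex_ball p r

section Main

variable (hE : IsCompact E)
  (hlnc : ∀ q, LNC E q → ∃ w ∈ E, h w < s ∧ ClearlyVisible E q w)

include hE hlnc

/-- Points of local nonconvexity have neighbourhoods consisting of points with descending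
paths. -/
theorem desc_of_lnc {q : V} (hq : LNC E q) : ∃ r > 0, ∀ p ∈ ball q r ∩ E, Desc E h s p := by
  obtain ⟨w, hwE, hws, r, hr, hvis⟩ := hlnc q hq
  refine ⟨r, hr, fun p hp => ?_⟩
  by_cases hps : h p < s
  · exact Desc.base p hp.2 hps
  · push Not at hps
    refine Desc.step p w ?_ (by linarith) (Desc.base w hwE hws)
    rw [segment_symm]
    exact hvis p hp

theorem desc_open {p : V} (hp : Desc E h s p) : ∃ r > 0, ∀ p' ∈ ball p r ∩ E, Desc E h s p' := by
  rcases lnc_or p hp.mem with hl | ⟨r, hr, hconv⟩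
  · exact desc_of_lnc hE hlnc hl
  · by_cases hps : h p < s
    · have hopen : IsOpen {x | h x < s} := isOpen_lt h.continuous continuous_const
      obtain ⟨ρ, hρ, hsub⟩ := Metric.isOpen_iff.1 hopen p hps
      exact ⟨ρ, hρ, fun p' hp' => Desc.base p' hp'.2 (hsub hp'.1)⟩
    · push Not at hps
      obtain ⟨u, hu, hdist, hlt⟩ := hp.near hps r hr
      have hopen : IsOpen {x | h u < h x} := isOpen_lt continuous_const h.continuous
      obtain ⟨ρ, hρ, hsub⟩ := Metric.isOpen_iff.1 hopen p hlt
      refine ⟨min r ρ, lt_min hr hρ, fun p' hp' => ?_⟩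
      have h1 : p' ∈ ball p r ∩ E := ⟨ball_subset_ball (min_le_left _ _) hp'.1, hp'.2⟩
      have h2 : h u < h p' := hsub (ball_subset_ball (min_le_right _ _) hp'.1)
      exact Desc.step p' u ((hconv.segment_subset h1 ⟨mem_ball.2 hdist, hu.mem⟩).trans
        inter_subset_right) h2 hu

theorem isClosed_compl : IsClosed {p | p ∈ E ∧ ¬ Desc E h s p} := by
  rw [← isSeqClosed_iff_isClosed]
  intro x p hx hlim
  have hpE : p ∈ E := hE.isClosed.mem_of_tendsto hlim (Filter.Eventually.of_forall fun n => (hx n).1)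
  refine ⟨hpE, fun hd => ?_⟩
  obtain ⟨r, hr, hball⟩ := desc_open hE hlnc hd
  have hev := hlim.eventually (ball_mem_nhds p hr)
  obtain ⟨n, hn⟩ := hev.exists
  exact (hx n).2 (hball _ ⟨hn, (hx n).1⟩)

/-- The threshold property at a boundary point of the set of points with descending paths. -/
theorem threshold {p : V} (hpc : p ∈ closure {x | Desc E h s x}) (hpn : ¬ Desc E h s p)
    {r : ℝ} (hr : 0 < r) (hconv : Convex ℝ (ball p r ∩ E)) {b : V} (hb : b ∈ ball p r ∩ E) :
    Desc E h s b ↔ h p < h b := by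
  have hpE : p ∈ E := hE.isClosed.closure_subset_iff.2 (fun x hx => Desc.mem hx) hpc
  have hpP : p ∈ ball p r ∩ E := ⟨mem_ball_self hr, hpE⟩
  constructor
  · intro hd
    by_contra hcon
    push Not at hcon
    exact hpn (Desc.of_convex hconv inter_subset_right (ball_inter_open p r) hb hpP hd hcon)
  · intro hlt
    have hopen : IsOpen ({x | h x < h b} ∩ ball p r) :=
      (isOpen_lt h.continuous continuous_const).inter isOpen_ball
    obtain ⟨a, ⟨ha1, ha2⟩, ha3⟩ := _root_.mem_closure_iff.1 hpc _ hopen ⟨hlt, mem_ball_self hr⟩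
    exact Desc.of_convex hconv inter_subset_right (ball_inter_open p r) ⟨ha2, Desc.mem ha3⟩ hb
      ha3 (le_of_lt ha1)

/-- The set of points with descending paths is closed. -/
theorem isClosed_desc : closure {x | Desc E h s x} ∩ {p | p ∈ E ∧ ¬ Desc E h s p} = ∅ := by
  by_contra hne
  obtain ⟨p0, hp0c, hp0E, hp0n⟩ := Set.nonempty_iff_ne_empty.2 hne
  set c := h p0 with hc
  set Fc := closure {x | Desc E h s x} with hFc
  have hFcE : Fc ⊆ E := hE.isClosed.closure_subset_iff.2 (fun x hx => Desc.mem hx)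
  have hFcc : IsCompact Fc := hE.of_isClosed_subset isClosed_closure hFcE
  set N : Set V := (Fc ∩ {p | p ∈ E ∧ ¬ Desc E h s p}) ∩ {p | h p = c} with hN
  have hNc : IsCompact N := by
    apply (hFcc.inter_right (isClosed_compl hE hlnc)).inter_right
    exact isClosed_eq h.continuous continuous_const
  have hp0N : p0 ∈ N := ⟨⟨hp0c, hp0E, hp0n⟩, rfl⟩
  have hNne : N.Nonempty := ⟨p0, hp0N⟩
  -- level at least `s`
  have hcs : s ≤ c := by
    by_contra hcon
    push Not at hcon
    exact hp0n (Desc.base p0 hp0E hcon)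
  -- a uniform radius
  obtain ⟨δ, hδ, hunif⟩ : ∃ δ > 0, ∀ p ∈ N, Convex ℝ (ball p δ ∩ E) := by
    have hloc : ∀ p : N, ∃ r > 0, Convex ℝ (ball (p : V) r ∩ E) := by
      rintro ⟨p, hp⟩
      rcases lnc_or p hp.1.2.1 with hl | hr
      · exfalso
        obtain ⟨r, hr, hball⟩ := desc_of_lnc hE hlnc hl
        exact hp.1.2.2 (hball p ⟨mem_ball_self hr, hp.1.2.1⟩)
      · exact hr
    choose r hr hconv using hloc
    obtain ⟨δ, hδ, hleb⟩ := lebesgue_number_lemma_of_metric (c := fun p : N => ball (p : V) (r p))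
      hNc (fun _ => isOpen_ball)
      (fun p hp => mem_iUnion.2 ⟨⟨p, hp⟩, mem_ball_self (hr ⟨p, hp⟩)⟩)
    refine ⟨δ, hδ, fun p hp => ?_⟩
    obtain ⟨q, hq⟩ := hleb p hp
    have : ball p δ ∩ E = ball p δ ∩ (ball (q : V) (r q) ∩ E) := by
      ext x
      constructor
      · rintro ⟨h1, h2⟩; exact ⟨h1, hq h1, h2⟩
      · rintro ⟨h1, _, h2⟩; exact ⟨h1, h2⟩
    rw [this]
    exact (convex_ball p δ).inter (hconv q)
  -- the exit set
  set T : Set V := Fc ∩ {e | infDist e N = δ / 3} with hT
  have hTc : IsCompact T := hFcc.inter_right (isClosed_eq (continuous_infDist_pt N) continuous_const)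
  have hTlev : ∀ e ∈ T, c < h e := by
    rintro e ⟨he, hed⟩
    rw [mem_ofPred_eq] at hed
    by_contra hcon
    push Not at hcon
    obtain ⟨p', hp', hdist⟩ := hNc.exists_infDist_eq_dist hNne e
    have hd : dist e p' < δ := by rw [← hdist, hed]; linarith
    have heP : e ∈ ball p' δ ∩ E := ⟨mem_ball.2 hd, hFcE he⟩
    have hp'c : h p' = c := hp'.2
    have hth := fun b hb => threshold hE hlnc hp'.1.1 hp'.1.2.2 hδ (hunif p' hp') (b := b) hb
    have hen : ¬ Desc E h s e := by
      rw [hth e heP, hp'c]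
      exact not_lt.2 hcon
    have hge : c ≤ h e := by
      have h1 : e ∈ closure ({x | Desc E h s x} ∩ ball p' δ) := by
        rw [_root_.mem_closure_iff] at he ⊢
        intro o ho heo
        obtain ⟨a, ⟨ha1, ha2⟩, ha3⟩ := he (o ∩ ball p' δ) (ho.inter isOpen_ball) ⟨heo, heP.1⟩
        exact ⟨a, ha1, ha3, ha2⟩
      have h2 : ({x | Desc E h s x} ∩ ball p' δ) ⊆ {x | c ≤ h x} := by
        rintro x ⟨hx1, hx2⟩
        have := (hth x ⟨hx2, Desc.mem hx1⟩).1 hx1
        rw [hp'c] at this
        exact this.le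
      have hcl : IsClosed {x | c ≤ h x} := isClosed_le continuous_const h.continuous
      exact (hcl.closure_subset_iff.2 h2) h1
    have heN : e ∈ N := ⟨⟨he, hFcE he, hen⟩, le_antisymm hcon hge⟩
    have : infDist e N = 0 := infDist_zero_of_mem heN
    rw [this] at hed
    linarith
  -- a lower bound on the exit set
  obtain ⟨m, hmc, hm⟩ : ∃ m, c < m ∧ ∀ e ∈ T, m ≤ h e := by
    by_cases hTne : T.Nonempty
    · obtain ⟨e, heT, hmin⟩ := hTc.exists_isMinOn hTne h.continuous.continuousOn
      exact ⟨h e, hTlev e heT, fun e' he' => hmin he'⟩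
    · rw [Set.not_nonempty_iff_eq_empty] at hTne
      exact ⟨c + 1, by linarith, fun e he => by rw [hTne] at he; exact absurd he (by simp)⟩
  -- descending paths leave the neighbourhood of `N` through the exit set
  have hexit : ∀ a, Desc E h s a → infDist a N < δ / 3 → ∃ e ∈ T, h e ≤ h a := by
    intro a ha
    induction ha with
    | base a haE has =>
      intro hd
      exfalso
      obtain ⟨p', hp', hdist⟩ := hNc.exists_infDist_eq_dist hNne a
      have h1 : a ∈ ball p' δ ∩ E := ⟨mem_ball.2 (by rw [← hdist]; linarith), haE⟩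
      have h2 := (threshold hE hlnc hp'.1.1 hp'.1.2.2 hδ (hunif p' hp') h1).1 (Desc.base a haE has)
      have h3 : h p' = c := hp'.2
      rw [h3] at h2
      linarith
    | step a u hau hlt hu ih =>
      intro hd
      by_cases hud : infDist u N < δ / 3
      · obtain ⟨e, he, hle⟩ := ih hud
        exact ⟨e, he, by linarith⟩
      · push Not at hud
        -- intermediate value on the segment
        have hcont : ContinuousOn (fun x => infDist x N) (segment ℝ a u) :=
          (continuous_infDist_pt N).continuousOn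
        have hpre : IsPreconnected (segment ℝ a u) := (convex_segment a u).isPreconnected
        have := hpre.intermediate_value (left_mem_segment ℝ a u) (right_mem_segment ℝ a u) hcont
        obtain ⟨e, he, hed⟩ := this ⟨hd.le, hud⟩
        refine ⟨e, ⟨subset_closure (Desc.of_segment hau hlt hu he), hed⟩, ?_⟩
        exact le_of_mem_segment he hlt.le
  -- a starting point
  have hopen : IsOpen ({x | h x < m} ∩ ball p0 (δ / 3)) :=
    (isOpen_lt h.continuous continuous_const).inter isOpen_ball
  obtain ⟨a, ⟨ha1, ha2⟩, ha3⟩ := _root_.mem_closure_iff.1 hp0c _ hopen ⟨hmc, mem_ball_self (by positivity)⟩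
  obtain ⟨e, heT, hle⟩ := hexit a ha3 (lt_of_le_of_lt (infDist_le_dist_of_mem hp0N) ha2)
  have := hm e heT
  have h5 : h a < m := ha1
  linarith

/-- In a compact connected set all of whose points of local nonconvexity are clearly visible from
points below the level `s`, every point has a descending path. -/
theorem desc_all (hconn : IsPreconnected E) (hne : ∃ w ∈ E, h w < s) :
    ∀ x ∈ E, Desc E h s x := by
  have hclF : IsClosed {x | Desc E h s x} := by
    rw [← closure_subset_iff_isClosed]
    intro p hp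
    by_contra hcon
    have hpE : p ∈ E := hE.isClosed.closure_subset_iff.2 (fun x hx => Desc.mem hx) hp
    have : p ∈ closure {x | Desc E h s x} ∩ {p | p ∈ E ∧ ¬ Desc E h s p} := ⟨hp, hpE, hcon⟩
    rw [isClosed_desc hE hlnc] at this
    exact this
  have hclN := isClosed_compl (h := h) (s := s) hE hlnc
  rw [isPreconnected_iff_subset_of_disjoint_closed] at hconn
  have hcov : E ⊆ {x | Desc E h s x} ∪ {p | p ∈ E ∧ ¬ Desc E h s p} := by
    intro x hx
    by_cases hd : Desc E h s x
    · exact Or.inl hd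
    · exact Or.inr ⟨hx, hd⟩
  have hdisj : E ∩ ({x | Desc E h s x} ∩ {p | p ∈ E ∧ ¬ Desc E h s p}) = ∅ := by
    ext x
    simp only [mem_inter_iff, mem_ofPred_eq, mem_empty_iff_false, iff_false]
    rintro ⟨_, h1, _, h2⟩
    exact h2 h1
  rcases hconn _ _ hclF hclN hcov hdisj with h1 | h1
  · exact fun x hx => h1 hx
  · exfalso
    obtain ⟨w, hw, hws⟩ := hne
    exact (h1 hw).2 (Desc.base w hw hws)

end Main

end Pool.Agent.V1120.LN
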