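import Pool.Agent.V1120.LN.Desc

/-!
# Starshapedness from clear visibility of points of local nonconvexity (helper20)
-/

namespace Pool.Agent.V1120.LN

open Set Metric Module
open scoped RealInnerProductSpace

variable {V : Type*} [NormedAddCommGroup V] [InnerProductSpace ℝ V]

/-- Krasnosel'skii's ball argument: if `z ∈ E` is not visible from `y` then some point `x` of the
closed set `E` is visible only from points of a closed half-space with `x` on its boundary which
does not contain `y`. -/
theorem touching {E : Set V} (hE : IsCompact E) {y z a : V} (hz : z ∈ E)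
    (ha : a ∈ segment ℝ y z) (haE : a ∉ E) :
    ∃ x ∈ E, ∃ ν : V, ⟪ν, y⟫ < ⟪ν, x⟫ ∧ ∀ w, segment ℝ x w ⊆ E → ⟪ν, x⟫ ≤ ⟪ν, w⟫ := by
  have hEne : E.Nonempty := ⟨z, hz⟩
  have hpos : 0 < infDist a E := by
    rw [← hE.isClosed.notMem_iff_infDist_pos hEne]
    exact haE
  set ρ : ℝ := infDist a E / 2 with hρ
  have hρ0 : 0 < ρ := by positivity
  set c : ℝ → V := fun t => a + t • (z - a) with hc
  have hcc : Continuous c := by fun_prop
  set T : Set ℝ := Icc 0 1 ∩ {t | infDist (c t) E ≤ ρ} with hT
  have hTc : IsCompact T := by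
    apply isCompact_Icc.inter_right
    exact isClosed_le ((continuous_infDist_pt E).comp hcc) continuous_const
  have h1T : (1 : ℝ) ∈ T := by
    refine ⟨by simp, ?_⟩
    have : c 1 = z := by simp [hc]
    rw [mem_ofPred_eq, this, infDist_zero_of_mem hz]
    exact hρ0.le
  obtain ⟨t0, ht0, hmin⟩ := hTc.exists_isMinOn ⟨1, h1T⟩ continuous_id.continuousOn
  have hlt : ∀ t, 0 ≤ t → t < t0 → ρ < infDist (c t) E := by
    intro t ht htt
    by_contra hcon
    push Not at hcon
    have : t ∈ T := ⟨⟨ht, htt.le.trans ht0.1.2⟩, hcon⟩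
    have h0 : t0 ≤ t := hmin this
    linarith
  have ht0pos : 0 < t0 := by
    rcases eq_or_lt_of_le ht0.1.1 with h | h
    · exfalso
      have h2 : infDist (c t0) E ≤ ρ := ht0.2
      rw [← h] at h2
      have : c 0 = a := by simp [hc]
      rw [this] at h2
      linarith
    · exact h
  obtain ⟨x, hxE, hx⟩ := hE.exists_infDist_eq_dist hEne (c t0)
  -- all points of `E` have distance at least `ρ` from `c t`, `t ≤ t0`
  have hdist : ∀ u ∈ E, ∀ t, 0 ≤ t → t < t0 → ρ < ‖u - c t‖ := by
    intro u hu t ht htt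
    calc ρ < infDist (c t) E := hlt t ht htt
      _ ≤ dist (c t) u := infDist_le_dist_of_mem hu
      _ = ‖u - c t‖ := by rw [dist_comm, dist_eq_norm]
  have hdist0 : ∀ u ∈ E, ρ ≤ ‖u - c t0‖ := by
    intro u hu
    have hcont : Continuous fun t => ‖u - c t‖ := by fun_prop
    have hcl : IsClosed {t | ρ ≤ ‖u - c t‖} := isClosed_le continuous_const hcont
    have hsub : Ico 0 t0 ⊆ {t | ρ ≤ ‖u - c t‖} := fun t ht => (hdist u hu t ht.1 ht.2).le
    have h2 : closure (Ico 0 t0) ⊆ {t | ρ ≤ ‖u - c t‖} := hcl.closure_subset_iff.2 hsub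
    rw [closure_Ico ht0pos.ne] at h2
    exact h2 ⟨ht0pos.le, le_refl _⟩
  set ν : V := x - c t0 with hν
  have hνnorm : ‖ν‖ = ρ := by
    apply le_antisymm
    · have h2 : infDist (c t0) E ≤ ρ := ht0.2
      rw [hx, dist_comm, dist_eq_norm] at h2
      exact h2
    · exact hdist0 x hxE
  -- direction of motion
  have hdir : 0 ≤ ⟪ν, z - a⟫ := by
    by_contra hcon
    push Not at hcon
    have hzan : 0 < ‖z - a‖ ^ 2 := by
      have : z - a ≠ 0 := by
        intro h0
        rw [h0, inner_zero_right] at hcon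
        exact lt_irrefl _ hcon
      positivity
    -- choose a small step
    set η : ℝ := min t0 (-⟪ν, z - a⟫ / ‖z - a‖ ^ 2) with hη
    have hη0 : 0 < η := lt_min ht0pos (by apply div_pos (by linarith) hzan)
    have h3 := hdist x hxE (t0 - η) (by linarith [min_le_left t0 (-⟪ν, z - a⟫ / ‖z - a‖ ^ 2)])
      (by linarith)
    have h4 : x - c (t0 - η) = ν + η • (z - a) := by
      simp only [hν, hc]; module
    rw [h4] at h3
    have h5 : ‖ν + η • (z - a)‖ ^ 2 = ‖ν‖ ^ 2 + 2 * (η * ⟪ν, z - a⟫) + η ^ 2 * ‖z - a‖ ^ 2 := by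
      rw [norm_add_sq_real, inner_smul_right, norm_smul, mul_pow, Real.norm_eq_abs, sq_abs]
    have h6 : η * ‖z - a‖ ^ 2 ≤ -⟪ν, z - a⟫ := by
      have := min_le_right t0 (-⟪ν, z - a⟫ / ‖z - a‖ ^ 2)
      rw [← hη, le_div_iff₀ hzan] at this
      exact this
    have h7 : ρ ^ 2 < ‖ν + η • (z - a)‖ ^ 2 := by
      have := norm_nonneg (ν + η • (z - a))
      nlinarith
    rw [h5, hνnorm] at h7
    nlinarith
  refine ⟨x, hxE, ν, ?_, ?_⟩
  · -- `y` lies strictly below
    obtain ⟨α, β, hα, hβ, hαβ, hay⟩ := ha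
    have hα0 : 0 < α := by
      rcases eq_or_lt_of_le hα with h | h
      · exfalso
        apply haE
        rw [← hay, ← h]
        have : β = 1 := by linarith
        rw [this]
        simpa using hz
      · exact h
    have h8 : ⟪ν, a⟫ = α * ⟪ν, y⟫ + β * ⟪ν, z⟫ := by
      rw [← hay, inner_add_right, inner_smul_right, inner_smul_right]
    have h9 : ⟪ν, x⟫ = ⟪ν, c t0⟫ + ρ ^ 2 := by
      have : x = c t0 + ν := by rw [hν]; abel
      nth_rewrite 1 [this]
      rw [inner_add_right, real_inner_self_eq_norm_sq, hνnorm]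
    have h10 : ⟪ν, c t0⟫ = ⟪ν, a⟫ + t0 * ⟪ν, z - a⟫ := by
      simp only [hc]
      rw [inner_add_right, inner_smul_right]
    rw [inner_sub_right] at hdir h10
    have h11 : β = 1 - α := by linarith
    rw [h11] at h8
    -- α (⟪ν,z⟫ - ⟪ν,y⟫) = ⟪ν,z⟫ - ⟪ν,a⟫ ≥ 0
    have h12 : ⟪ν, y⟫ ≤ ⟪ν, a⟫ := by
      by_contra hcon
      push Not at hcon
      nlinarith
    have h13 : 0 < ρ ^ 2 := by positivity
    nlinarith
  · intro w hw
    by_contra hcon
    push Not at hcon
    have hxw : 0 < ‖w - x‖ ^ 2 := by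
      have : w - x ≠ 0 := by
        intro h0
        have : w = x := sub_eq_zero.1 h0
        rw [this] at hcon
        exact lt_irrefl _ hcon
      positivity
    have hneg : ⟪ν, w - x⟫ < 0 := by rw [inner_sub_right]; linarith
    set η : ℝ := min 1 (-⟪ν, w - x⟫ / ‖w - x‖ ^ 2) with hη
    have hη0 : 0 < η := lt_min one_pos (by apply div_pos (by linarith) hxw)
    have hη1 : η ≤ 1 := min_le_left _ _
    have hmem : x + η • (w - x) ∈ E := by
      apply hw
      exact ⟨1 - η, η, by linarith, hη0.le, by ring, by module⟩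
    have h3 := hdist0 _ hmem
    have h4 : x + η • (w - x) - c t0 = ν + η • (w - x) := by
      rw [hν]; abel
    rw [h4] at h3
    have h5 : ‖ν + η • (w - x)‖ ^ 2 = ‖ν‖ ^ 2 + 2 * (η * ⟪ν, w - x⟫) + η ^ 2 * ‖w - x‖ ^ 2 := by
      rw [norm_add_sq_real, inner_smul_right, norm_smul, mul_pow, Real.norm_eq_abs, sq_abs]
    have h6 : η * ‖w - x‖ ^ 2 ≤ -⟪ν, w - x⟫ := by
      have := min_le_right 1 (-⟪ν, w - x⟫ / ‖w - x‖ ^ 2)
      rw [← hη, le_div_iff₀ hxw] at this
      exact this
    have h7 : ρ ^ 2 ≤ ‖ν + η • (w - x)‖ ^ 2 := by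
      have := norm_nonneg (ν + η • (w - x))
      nlinarith
    rw [h5, hνnorm] at h7
    nlinarith

/-- Property `C_n`: any `n` points of local nonconvexity are clearly visible from a common
point. -/
def PropC (n : ℕ) (E : Set V) : Prop :=
  ∀ x : Fin n → V, (∀ i, LNC E (x i)) → ∃ y ∈ E, ∀ i, ClearlyVisible E (x i) y

theorem starshaped_of_propC [FiniteDimensional ℝ V] {E : Set V} (hE : IsCompact E)
    (hconn : IsConnected E) (hC : PropC (finrank ℝ V + 1) E) :
    ∃ y ∈ E, ∀ x ∈ E, segment ℝ y x ⊆ E := by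
  classical
  -- the sets from which a point of local nonconvexity is clearly visible
  set A : V → Set V := fun q => {w | w ∈ E ∧ ClearlyVisible E q w} with hA
  -- a common point of the closed convex hulls
  obtain ⟨y, hy, hyE⟩ : ∃ y, (∀ q, LNC E q → y ∈ closure (convexHull ℝ (A q))) ∧
      ((∀ q, ¬ LNC E q) → y ∈ E) := by
    by_cases hL : ∃ q, LNC E q
    · obtain ⟨q0, hq0⟩ := hL
      have hhelly := Convex.helly_theorem_compact' (𝕜 := ℝ)
        (F := fun q : {q // LNC E q} => closure (convexHull ℝ (A q)))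
        (fun q => (convex_convexHull ℝ _).closure) (fun q => by
          apply Metric.isCompact_of_isClosed_isBounded isClosed_closure
          apply Bornology.IsBounded.closure
          rw [isBounded_convexHull]
          exact hE.isBounded.subset (fun w hw => hw.1)) (by
          intro I hI
          -- list the elements of `I`, with repetitions
          obtain ⟨x, hx⟩ : ∃ x : Fin (finrank ℝ V + 1) → {q // LNC E q}, ∀ q ∈ I, ∃ i, x i = q := by
            rcases Finset.eq_empty_or_nonempty I with rfl | hIne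
            · exact ⟨fun _ => ⟨q0, hq0⟩, fun q hq => absurd hq (by simp)⟩
            · set e := I.equivFin with he
              refine ⟨fun i => if hi : (i : ℕ) < I.card then (e.symm ⟨i, hi⟩ : I) else ⟨q0, hq0⟩, ?_⟩
              intro q hq
              refine ⟨⟨(e ⟨q, hq⟩ : ℕ), lt_of_lt_of_le (e ⟨q, hq⟩).2 hI⟩, ?_⟩
              simp
          obtain ⟨w, hw, hvis⟩ := hC (fun i => (x i : V)) (fun i => (x i).2)
          refine ⟨w, ?_⟩
          simp only [Set.mem_iInter]
          intro q hq
          obtain ⟨i, hi⟩ := hx q hq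
          apply subset_closure
          apply subset_convexHull
          refine ⟨hw, ?_⟩
          have := hvis i
          rwa [hi] at this)
      obtain ⟨y, hy⟩ := hhelly
      rw [Set.mem_iInter] at hy
      exact ⟨y, fun q hq => hy ⟨q, hq⟩, fun h => absurd hq0 (h q0)⟩
    · push Not at hL
      obtain ⟨y, hy⟩ := hconn.nonempty
      exact ⟨y, fun q hq => absurd hq (hL q), fun _ => hy⟩
  -- `y` sees every point
  have hsee : ∀ z ∈ E, segment ℝ y z ⊆ E := by
    intro z hz
    by_contra hcon
    rw [Set.not_subset] at hcon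
    obtain ⟨a, ha, haE⟩ := hcon
    obtain ⟨x, hxE, ν, hyx, hxs⟩ := touching hE hz ha haE
    set h : V →L[ℝ] ℝ := innerSL ℝ ν with hh
    have happ : ∀ u, h u = ⟪ν, u⟫ := fun u => by rw [hh]; rfl
    have hlnc : ∀ q, LNC E q → ∃ w ∈ E, h w < h x ∧ ClearlyVisible E q w := by
      intro q hq
      by_contra hno
      push Not at hno
      have hsub : A q ⊆ {u | h x ≤ h u} := by
        intro w hw
        by_contra hlt
        rw [mem_ofPred_eq, not_le] at hlt
        exact hno w hw.1 hlt hw.2
      have hconvx : Convex ℝ {u | h x ≤ h u} := by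
        intro u hu v hv α β hα hβ hαβ
        simp only [mem_ofPred_eq, map_add, map_smul, smul_eq_mul] at hu hv ⊢
        have : β = 1 - α := by linarith
        rw [this] at hβ ⊢
        nlinarith
      have hcl : IsClosed {u | h x ≤ h u} := isClosed_le continuous_const h.continuous
      have h1 : closure (convexHull ℝ (A q)) ⊆ {u | h x ≤ h u} :=
        hcl.closure_subset_iff.2 (convexHull_min hsub hconvx)
      have h2 := h1 (hy q hq)
      rw [mem_ofPred_eq, happ, happ] at h2
      linarith
    have hne : ∃ w ∈ E, h w < h x := by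
      by_cases hL : ∃ q, LNC E q
      · obtain ⟨q, hq⟩ := hL
        obtain ⟨w, hw, hlt, _⟩ := hlnc q hq
        exact ⟨w, hw, hlt⟩
      · push Not at hL
        exact ⟨y, hyE hL, by rw [happ, happ]; exact hyx⟩
    have hd := desc_all hE hlnc hconn.isPreconnected hne x hxE
    cases hd with
    | base _ _ h1 => exact lt_irrefl _ h1
    | step _ u h1 h2 _ =>
      have h3 := hxs u h1
      rw [happ, happ] at h2
      linarith
  obtain ⟨z, hz⟩ := hconn.nonempty
  exact ⟨y, hsee z hz (left_mem_segment ℝ y z), hsee⟩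

end Pool.Agent.V1120.LN
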